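import Pool.Agent.Y503.RB.Def3

/-!
Project RB: a function of one variable.
-/

set_option autoImplicit false

namespace Pool.Agent.Y972.RB

open scoped ContDiff Topology
open MeasureTheory Set Metric Pool.Agent.Y503.RB

/-- primitives of smooth functions -/
theorem prim (θ : ℝ → ℝ) (hθ : ContDiff ℝ ∞ θ) (x0 : ℝ) :
    ∃ Θ : ℝ → ℝ, ContDiff ℝ ∞ Θ ∧ (∀ x, HasDerivAt Θ (θ x) x) ∧ Θ x0 = 0 := by
  have hd : ∀ x, HasDerivAt (fun y => ∫ t in x0..y, θ t) (θ x) x := fun x =>
    intervalIntegral.integral_hasDerivAt_right (hθ.continuous.intervalIntegrable _ _)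
      (hθ.continuous.stronglyMeasurableAtFilter _ _) hθ.continuous.continuousAt
  refine ⟨fun y => ∫ t in x0..y, θ t, ?_, hd, intervalIntegral.integral_same⟩
  rw [contDiff_infty_iff_deriv]
  refine ⟨fun x => (hd x).differentiableAt, ?_⟩
  have : deriv (fun y => ∫ t in x0..y, θ t) = θ := funext fun x => (hd x).deriv
  rw [this]
  exact hθ

theorem mv_le {f f' : ℝ → ℝ} (hf : ∀ x, HasDerivAt f (f' x) x) {a b M : ℝ} (hab : a ≤ b)
    (hM : ∀ x ∈ Ioo a b, f' x ≤ M) : f b - f a ≤ M * (b - a) := by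
  refine (convex_Icc a b).image_sub_le_mul_sub_of_deriv_le
    (fun x _ => (hf x).continuousAt.continuousWithinAt)
    (fun x _ => (hf x).differentiableAt.differentiableWithinAt) ?_ a (left_mem_Icc.2 hab) b
    (right_mem_Icc.2 hab) hab
  intro x hx
  rw [interior_Icc] at hx
  rw [(hf x).deriv]
  exact hM x hx

theorem mv_ge {f f' : ℝ → ℝ} (hf : ∀ x, HasDerivAt f (f' x) x) {a b M : ℝ} (hab : a ≤ b)
    (hM : ∀ x ∈ Ioo a b, M ≤ f' x) : M * (b - a) ≤ f b - f a := by
  refine (convex_Icc a b).mul_sub_le_image_sub_of_le_deriv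
    (fun x _ => (hf x).continuousAt.continuousWithinAt)
    (fun x _ => (hf x).differentiableAt.differentiableWithinAt) ?_ a (left_mem_Icc.2 hab) b
    (right_mem_Icc.2 hab) hab
  intro x hx
  rw [interior_Icc] at hx
  rw [(hf x).deriv]
  exact hM x hx

/-- the function `κ` -/
structure Kp (K η : ℝ) (κ κ' : ℝ → ℝ) (ε : ℝ) (C : Finset ℝ) : Prop where
  smooth : ContDiff ℝ ∞ κ
  der : ∀ s, HasDerivAt κ (κ' s) s
  nn : ∀ s, 0 ≤ κ' s
  le1 : ∀ s, κ' s ≤ 1
  id : ∃ a, 0 < a ∧ ∀ s, s ≤ a → κ s = s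
  lt : ∀ s, κ s < ε
  flat : ∀ s, ε ≤ s → (∀ c ∈ C, c ≤ s) → κ' s = 0
  zone : ∀ s, 0 < s → ∀ c ∈ C, c - K * κ s ≤ s → s ≤ c - η * κ s → 3 / 4 ≤ κ' s

theorem Kp.pos {K η : ℝ} {κ κ' : ℝ → ℝ} {ε : ℝ} {C : Finset ℝ} (h : Kp K η κ κ' ε C) {s : ℝ}
    (hs : 0 < s) : 0 < κ s := by
  obtain ⟨a, ha, hid⟩ := h.id
  rcases le_total s a with h1 | h1
  · rw [hid s h1]
    exact hs
  · have h2 := mv_ge h.der h1 (M := 0) (fun x _ => h.nn x)
    rw [hid a le_rfl, zero_mul] at h2
    linarith

theorem Kp.le {K η : ℝ} {κ κ' : ℝ → ℝ} {ε : ℝ} {C : Finset ℝ} (h : Kp K η κ κ' ε C) (s : ℝ) :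
    κ s ≤ s := by
  obtain ⟨a, ha, hid⟩ := h.id
  rcases le_total s a with h1 | h1
  · exact (hid s h1).le
  · have h2 := mv_le h.der h1 (M := 1) (fun x _ => h.le1 x)
    rw [hid a le_rfl, one_mul] at h2
    linarith

/-- the first case -/
theorem base (K η ε : ℝ) (hε : 0 < ε) : ∃ κ κ' : ℝ → ℝ, Kp K η κ κ' ε ∅ := by
  set a := ε / 4 with ha
  have ha0 : 0 < a := by positivity
  let θ : ℝ → ℝ := fun s => 1 - Real.smoothTransition ((s - a) / a)
  have hθ : ContDiff ℝ ∞ θ :=
    contDiff_const.sub (Real.smoothTransition.contDiff.comp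
      ((contDiff_id.sub contDiff_const).div_const a))
  have hθ1 : ∀ s, s ≤ a → θ s = 1 := by
    intro s hs
    simp only [θ]
    rw [Real.smoothTransition.zero_of_nonpos, sub_zero]
    exact div_nonpos_of_nonpos_of_nonneg (by linarith) ha0.le
  have hθ0 : ∀ s, 2 * a ≤ s → θ s = 0 := by
    intro s hs
    simp only [θ]
    rw [Real.smoothTransition.one_of_one_le, sub_self]
    rw [one_le_div ha0]
    linarith
  have hnn : ∀ s, 0 ≤ θ s := fun s => sub_nonneg.2 (Real.smoothTransition.le_one _)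
  have hle : ∀ s, θ s ≤ 1 := fun s => by
    have := Real.smoothTransition.nonneg ((s - a) / a)
    simp only [θ]
    linarith
  obtain ⟨κ, hκ, hd, h0⟩ := prim θ hθ 0
  have hid : ∀ s, s ≤ a → κ s = s := by
    intro s hs
    rcases le_total 0 s with h1 | h1
    · have h2 := mv_le hd h1 (M := 1) (fun x _ => hle x)
      have h3 := mv_ge hd h1 (M := 1) (fun x hx => (hθ1 x (hx.2.le.trans hs)).ge)
      linarith
    · have h2 := mv_le hd h1 (M := 1) (fun x _ => hle x)
      have h3 := mv_ge hd h1 (M := 1) (fun x hx => (hθ1 x (hx.2.le.trans ha0.le)).ge)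
      linarith
  have h2a : κ (2 * a) ≤ 2 * a := by
    have h2 := mv_le hd (by positivity : (0 : ℝ) ≤ 2 * a) (M := 1) (fun x _ => hle x)
    linarith
  refine ⟨κ, θ, hκ, hd, hnn, hle, ⟨a, ha0, hid⟩, ?_, ?_, ?_⟩
  · intro s
    rcases le_total s (2 * a) with h1 | h1
    · have h2 := mv_ge hd h1 (M := 0) (fun x _ => hnn x)
      linarith
    · have h2 := mv_le hd h1 (M := 0) (fun x hx => (hθ0 x hx.1.le).le)
      linarith
  · intro s hs _
    exact hθ0 s (by linarith)
  · intro s _ c hc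
    exact absurd hc (Finset.notMem_empty c)

/-- the bump -/
theorem bump (K η : ℝ) (hK : 1 ≤ K) (hη : 0 < η) (hη1 : η ≤ 1 / 2) :
    ∃ Θ θ : ℝ → ℝ, ContDiff ℝ ∞ Θ ∧ (∀ x, HasDerivAt Θ (θ x) x) ∧ (∀ x, 0 ≤ θ x) ∧
      (∀ x, θ x ≤ 1) ∧ (∀ x, x ≤ -2 → θ x = 0) ∧ (∀ x, 0 ≤ x → θ x = 0) ∧
      (∀ x, -1 ≤ x → x ≤ -(η / 2) → θ x = 1) ∧ (∀ x, x ≤ -2 → Θ x = 0) ∧
      (∀ x, x ≤ -1 → Θ x ≤ 1 / (4 * K)) ∧ (∀ x, -(η / 2) ≤ x → 1 - η / 2 ≤ Θ x) ∧
      (∀ x, 0 ≤ Θ x) ∧ ∀ x, Θ x ≤ 2 := by
  set δ := 1 / (4 * K) with hδ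
  have hδ0 : 0 < δ := by positivity
  have hδ1 : δ ≤ 1 / 4 := by
    rw [hδ]
    apply one_div_le_one_div_of_le (by norm_num)
    linarith
  let θ : ℝ → ℝ := fun x => Real.smoothTransition ((x + 1 + δ) / δ) *
    Real.smoothTransition (-x / (η / 2))
  have hη2 : 0 < η / 2 := by positivity
  have hθ : ContDiff ℝ ∞ θ :=
    (Real.smoothTransition.contDiff.comp
      (((contDiff_id.add contDiff_const).add contDiff_const).div_const δ)).mul
      (Real.smoothTransition.contDiff.comp (contDiff_id.neg.div_const (η / 2)))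
  have hnn : ∀ x, 0 ≤ θ x := fun x =>
    mul_nonneg (Real.smoothTransition.nonneg _) (Real.smoothTransition.nonneg _)
  have hle : ∀ x, θ x ≤ 1 := fun x =>
    mul_le_one₀ (Real.smoothTransition.le_one _) (Real.smoothTransition.nonneg _)
      (Real.smoothTransition.le_one _)
  have h0 : ∀ x, x ≤ -1 - δ → θ x = 0 := by
    intro x hx
    simp only [θ]
    rw [Real.smoothTransition.zero_of_nonpos, zero_mul]
    exact div_nonpos_of_nonpos_of_nonneg (by linarith) hδ0.le
  have h0' : ∀ x, 0 ≤ x → θ x = 0 := by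
    intro x hx
    simp only [θ]
    rw [Real.smoothTransition.zero_of_nonpos (x := -x / (η / 2)), mul_zero]
    exact div_nonpos_of_nonpos_of_nonneg (by linarith) hη2.le
  have h1 : ∀ x, -1 ≤ x → x ≤ -(η / 2) → θ x = 1 := by
    intro x hx hx'
    simp only [θ]
    rw [Real.smoothTransition.one_of_one_le, Real.smoothTransition.one_of_one_le, mul_one]
    · rw [one_le_div hη2]
      linarith
    · rw [one_le_div hδ0]
      linarith
  obtain ⟨Θ, hΘ, hd, hz⟩ := prim θ hθ (-1 - δ)
  have hz' : ∀ x, x ≤ -1 - δ → Θ x = 0 := by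
    intro x hx
    have h2 := mv_le hd hx (M := 0) (fun y hy => (h0 y hy.2.le).le)
    have h3 := mv_ge hd hx (M := 0) (fun y hy => hnn y)
    linarith
  have hpos : ∀ x, 0 ≤ Θ x := by
    intro x
    rcases le_total x (-1 - δ) with h2 | h2
    · exact (hz' x h2).ge
    · have h3 := mv_ge hd h2 (M := 0) (fun y hy => hnn y)
      linarith
  have hm1 : Θ (-1) ≤ δ := by
    have h3 := mv_le hd (by linarith : -1 - δ ≤ -1) (M := 1) (fun y _ => hle y)
    linarith
  have hup0 : Θ 0 ≤ 2 := by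
    have h3 := mv_le hd (by linarith : -1 - δ ≤ 0) (M := 1) (fun y _ => hle y)
    linarith
  have hmid : 1 - η / 2 ≤ Θ (-(η / 2)) := by
    have h3 := mv_ge hd (by linarith : -1 ≤ -(η / 2)) (M := 1)
      (fun y hy => (h1 y hy.1.le hy.2.le).ge)
    have h4 := hpos (-1)
    linarith
  refine ⟨Θ, θ, hΘ, hd, hnn, hle, fun x hx => h0 x (by linarith), h0', h1,
    fun x hx => hz' x (by linarith), ?_, ?_, hpos, ?_⟩
  · intro x hx
    have h3 := mv_ge hd hx (M := 0) (fun y _ => hnn y)
    linarith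
  · intro x hx
    have h3 := mv_ge hd hx (M := 0) (fun y _ => hnn y)
    linarith
  · intro x
    rcases le_total x 0 with h2 | h2
    · have h3 := mv_ge hd h2 (M := 0) (fun y _ => hnn y)
      linarith
    · have h3 := mv_le hd h2 (M := 0) (fun y hy => (h0' y hy.1.le).le)
      linarith

theorem exists_kappa (K η : ℝ) (hK : 1 ≤ K) (hη : 0 < η) (hη1 : η ≤ 1 / 2) (C : Finset ℝ) :
    (∀ c ∈ C, 0 < c) → ∀ ε : ℝ, 0 < ε → ∃ κ κ' : ℝ → ℝ, Kp K η κ κ' ε C := by
  classical
  induction C using Finset.induction_on_max with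
  | empty => exact fun _ ε hε => base K η ε hε
  | insert c C hc ih =>
    intro hpos ε hε
    have hc0 : 0 < c := hpos c (Finset.mem_insert_self _ _)
    obtain ⟨Θ, θ, hΘ, hd, hnn, hle, hz, hz', h1, hZ, hZm, hZp, hΘ0, hΘ2⟩ := bump K η hK hη hη1
    -- the radius
    obtain ⟨r, hr, hr1, hr2, hr3⟩ : ∃ r : ℝ, 0 < r ∧ (∀ c' ∈ C, c' ≤ c - 2 * r) ∧
        2 * r < ε / 2 ∧ 2 * r < c / 2 := by
      obtain ⟨m, hm0, hm⟩ : ∃ m : ℝ, 0 < m ∧ ∀ c' ∈ C, c' + m ≤ c := by
        rcases C.eq_empty_or_nonempty with h | h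
        · exact ⟨1, one_pos, fun c' hc' => by rw [h] at hc'; exact absurd hc' (Finset.notMem_empty _)⟩
        · refine ⟨c - C.max' h, sub_pos.2 (hc _ (C.max'_mem h)), fun c' hc' => ?_⟩
          have := C.le_max' c' hc'
          linarith
      refine ⟨min (m / 2) (min (ε / 8) (c / 8)), by positivity, fun c' hc' => ?_, ?_, ?_⟩
      · have h2 := hm c' hc'
        have h3 := min_le_left (m / 2) (min (ε / 8) (c / 8))
        linarith
      · have h3 := (min_le_right (m / 2) (min (ε / 8) (c / 8))).trans (min_le_left _ _)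
        linarith
      · have h3 := (min_le_right (m / 2) (min (ε / 8) (c / 8))).trans (min_le_right _ _)
        linarith
    have hK0 : 0 < K := by linarith
    set ε' := min (r / (2 * K)) (min (ε / 2) (c - 2 * r)) with hε'
    have hε'0 : 0 < ε' := lt_min (by positivity) (lt_min (by positivity) (by linarith))
    have he1 : ε' ≤ r / (2 * K) := min_le_left _ _
    have he2 : ε' ≤ ε / 2 := (min_le_right _ _).trans (min_le_left _ _)
    have he3 : ε' ≤ c - 2 * r := (min_le_right _ _).trans (min_le_right _ _)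
    have he1' : K * ε' ≤ r / 2 := by
      rw [le_div_iff₀ (by positivity)] at he1
      linarith
    obtain ⟨κ, κ', hκ⟩ := ih (fun c' hc' => hpos c' (Finset.mem_insert_of_mem hc')) ε' hε'0
    have hflat : ∀ s, c - 2 * r ≤ s → κ' s = 0 := fun s hs =>
      hκ.flat s (he3.trans hs) (fun c' hc' => (hr1 c' hc').trans hs)
    have hleft : ∀ s, s ≤ c - 2 * r → (s - c) / r ≤ -2 := by
      intro s hs
      rw [div_le_iff₀ hr]
      linarith
    refine ⟨fun s => κ s + r * Θ ((s - c) / r), fun s => κ' s + θ ((s - c) / r), ?_, ?_, ?_, ?_, ?_,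
      ?_, ?_, ?_⟩
    · exact hκ.smooth.add (contDiff_const.mul (hΘ.comp
        ((contDiff_id.sub contDiff_const).div_const r)))
    · intro s
      have h2 : HasDerivAt (fun s => (s - c) / r) (1 / r) s :=
        ((hasDerivAt_id s).sub_const c).div_const r
      have h3 := (hd ((s - c) / r)).comp s h2
      have h4 := (hκ.der s).add (h3.const_mul r)
      have h5 : κ' s + r * (θ ((s - c) / r) * (1 / r)) = κ' s + θ ((s - c) / r) := by
        field_simp
      rw [h5] at h4
      exact h4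
    · intro s
      exact add_nonneg (hκ.nn s) (hnn _)
    · intro s
      show κ' s + θ ((s - c) / r) ≤ 1
      rcases le_total s (c - 2 * r) with h2 | h2
      · rw [hz _ (hleft s h2), add_zero]
        exact hκ.le1 s
      · rw [hflat s h2, zero_add]
        exact hle _
    · obtain ⟨a, ha, hid⟩ := hκ.id
      refine ⟨min a (c - 2 * r), lt_min ha (by linarith), fun s hs => ?_⟩
      show κ s + r * Θ ((s - c) / r) = s
      rw [hZ _ (hleft s (hs.trans (min_le_right _ _))), mul_zero, add_zero]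
      exact hid s (hs.trans (min_le_left _ _))
    · intro s
      show κ s + r * Θ ((s - c) / r) < ε
      have h2 := hκ.lt s
      have h3 : r * Θ ((s - c) / r) ≤ r * 2 := mul_le_mul_of_nonneg_left (hΘ2 _) hr.le
      linarith
    · intro s hs hs'
      show κ' s + θ ((s - c) / r) = 0
      have h2 : c ≤ s := hs' c (Finset.mem_insert_self _ _)
      rw [hflat s (by linarith), zero_add]
      exact hz' _ (div_nonneg (by linarith) hr.le)
    · intro s hs c' hc' h2 h3
      change c' - K * (κ s + r * Θ ((s - c) / r)) ≤ s at h2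
      change s ≤ c' - η * (κ s + r * Θ ((s - c) / r)) at h3
      show 3 / 4 ≤ κ' s + θ ((s - c) / r)
      have hκs := hκ.pos hs
      have hΘs := hΘ0 ((s - c) / r)
      rcases Finset.mem_insert.1 hc' with rfl | hc''
      · -- the new point
        have h4 : -1 ≤ (s - c') / r := by
          by_contra h5
          have h5' := not_le.1 h5
          have h6 := hZm _ h5'.le
          have h7 := hκ.lt s
          have h8 : K * (κ s + r * Θ ((s - c') / r)) ≤ K * (ε' + r * (1 / (4 * K))) := by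
            apply mul_le_mul_of_nonneg_left _ hK0.le
            have := mul_le_mul_of_nonneg_left h6 hr.le
            linarith
          have h9 : K * (ε' + r * (1 / (4 * K))) = K * ε' + r / 4 := by
            field_simp
          rw [div_lt_iff₀ hr] at h5'
          linarith
        have h5 : (s - c') / r ≤ -(η / 2) := by
          by_contra h6
          have h6' := not_le.1 h6
          have h7 := hZp _ h6'.le
          rw [lt_div_iff₀ hr] at h6'
          have h8 : η * (r * (1 - η / 2)) ≤ η * (κ s + r * Θ ((s - c') / r)) := by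
            apply mul_le_mul_of_nonneg_left _ hη.le
            have := mul_le_mul_of_nonneg_left h7 hr.le
            linarith
          have h9 : η * (r * (1 / 2)) ≤ η * (r * (1 - η / 2)) := by
            apply mul_le_mul_of_nonneg_left _ hη.le
            apply mul_le_mul_of_nonneg_left _ hr.le
            linarith
          nlinarith
        rw [h1 _ h4 h5]
        have := hκ.nn s
        linarith
      · -- the old points
        have h4 := hr1 c' hc''
        have h5 : 0 ≤ η * (κ s + r * Θ ((s - c) / r)) := by positivity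
        have h6 : s ≤ c - 2 * r := by linarith
        rw [hZ _ (hleft s h6), mul_zero, add_zero] at h2 h3
        rw [hz _ (hleft s h6), add_zero]
        exact hκ.zone s hs c' hc'' h2 h3

/-- KAPPA -/
theorem kappa : Pool.Agent.Y503.RB.St_KAPPA := by
  intro ε K η C hε hK hη hC
  obtain ⟨κ, κ', hκ⟩ := exists_kappa (max K 1) (min η (1 / 2)) (le_max_right _ _)
    (lt_min hη (by norm_num)) (min_le_right _ _) C hC ε hε
  obtain ⟨a, ha, hid⟩ := hκ.id
  let g : ℝ → ℝ := fun u => if u ≤ 0 then 0 else (κ u)⁻¹ - u⁻¹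
  have hg0 : ∀ u, u ≤ a → g u = 0 := by
    intro u hu
    simp only [g]
    split_ifs with h1
    · rfl
    · rw [hid u hu, sub_self]
  have hgpos : ∀ u, 0 < u → g u = (κ u)⁻¹ - u⁻¹ := fun u hu => if_neg (not_le.2 hu)
  have hg : ContDiff ℝ ∞ g := by
    rw [contDiff_iff_contDiffAt]
    intro u
    rcases lt_or_ge u a with h1 | h1
    · have h2 : g =ᶠ[𝓝 u] fun _ => 0 := by
        filter_upwards [Iio_mem_nhds h1] with w hw
        exact hg0 w (le_of_lt hw)
      exact contDiffAt_const.congr_of_eventuallyEq h2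
    · have hu : 0 < u := ha.trans_le h1
      have h2 : g =ᶠ[𝓝 u] fun w => (κ w)⁻¹ - w⁻¹ := by
        filter_upwards [Ioi_mem_nhds hu] with w hw
        exact hgpos w hw
      refine ContDiffAt.congr_of_eventuallyEq ?_ h2
      exact (hκ.smooth.contDiffAt.inv (hκ.pos hu).ne').sub (contDiffAt_id.inv hu.ne')
  have hgnn : ∀ u, 0 ≤ g u := by
    intro u
    rcases le_or_gt u 0 with h1 | h1
    · exact (hg0 u (h1.trans ha.le)).ge
    · rw [hgpos u h1, sub_nonneg]
      exact inv_anti₀ (hκ.pos h1) (hκ.le u)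
  obtain ⟨G, hG, hd, hG0⟩ := prim g hg 0
  have hGneg : ∀ u, u ≤ 0 → G u = 0 := by
    intro u hu
    have h2 := mv_le hd hu (M := 0) (fun y hy => (hg0 y (hy.2.le.trans ha.le)).le)
    have h3 := mv_ge hd hu (M := 0) (fun y hy => hgnn y)
    linarith
  have hGnn : ∀ u, 0 ≤ u → 0 ≤ G u := by
    intro u hu
    have h3 := mv_ge hd hu (M := 0) (fun y hy => hgnn y)
    linarith
  let h : ℝ → ℝ := fun s => s * Real.exp (G s)
  have hh : ContDiff ℝ ∞ h := contDiff_id.mul (Real.contDiff_exp.comp hG)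
  have hder : ∀ s, HasDerivAt h (Real.exp (G s) * (1 + s * g s)) s := by
    intro s
    have h1 := (hasDerivAt_id s).mul ((hd s).exp)
    have h2 : 1 * Real.exp (G s) + id s * (Real.exp (G s) * g s) =
        Real.exp (G s) * (1 + s * g s) := by
      simp only [id]
      ring
    rw [h2] at h1
    exact h1
  have hderv : ∀ s, deriv h s = Real.exp (G s) * (1 + s * g s) := fun s => (hder s).deriv
  have hfac : ∀ s, 0 < s → 1 + s * g s = s / κ s := by
    intro s hs
    have h1 := hκ.pos hs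
    rw [hgpos s hs]
    field_simp
    ring
  have hkap : ∀ s, 0 < s → kap h s = κ s := by
    intro s hs
    have h1 := hκ.pos hs
    have h2 := Real.exp_pos (G s)
    unfold kap
    rw [hderv, hfac s hs]
    show s * Real.exp (G s) / (Real.exp (G s) * (s / κ s)) = κ s
    field_simp
  have hkd : ∀ s, 0 < s → deriv (kap h) s = κ' s := by
    intro s hs
    have h1 : kap h =ᶠ[𝓝 s] κ := by
      filter_upwards [Ioi_mem_nhds hs] with w hw
      exact hkap w hw
    rw [h1.deriv_eq]
    exact (hκ.der s).deriv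
  refine ⟨h, hh, ?_, ?_, ?_, ?_⟩
  · show (0 : ℝ) * Real.exp (G 0) = 0
    rw [zero_mul]
  · intro s
    rw [hderv]
    refine mul_pos (Real.exp_pos _) ?_
    rcases le_or_gt s 0 with h1 | h1
    · rw [hg0 s (h1.trans ha.le), mul_zero, add_zero]
      exact one_pos
    · rw [hfac s h1]
      exact div_pos h1 (hκ.pos h1)
  · intro y
    rcases le_or_gt y 0 with h1 | h1
    · refine ⟨y, ?_⟩
      show y * Real.exp (G y) = y
      rw [hGneg y h1, Real.exp_zero, mul_one]
    · have h2 : y ∈ Icc (h 0) (h y) := by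
        constructor
        · show (0 : ℝ) * Real.exp (G 0) ≤ y
          rw [zero_mul]
          exact h1.le
        · show y ≤ y * Real.exp (G y)
          have h3 := Real.one_le_exp (hGnn y h1.le)
          nlinarith
      obtain ⟨s, -, hs⟩ := intermediate_value_Icc h1.le hh.continuous.continuousOn h2
      exact ⟨s, hs⟩
  · intro s hs
    rw [hkap s hs, hkd s hs]
    have hp := hκ.pos hs
    refine ⟨hp, hκ.lt s, hκ.nn s, hκ.le1 s, ?_⟩
    intro c hc h1 h2
    refine hκ.zone s hs c hc ?_ ?_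
    · have h3 : K * κ s ≤ max K 1 * κ s := mul_le_mul_of_nonneg_right (le_max_left _ _) hp.le
      linarith
    · have h3 : min η (1 / 2) * κ s ≤ η * κ s := mul_le_mul_of_nonneg_right (min_le_left _ _) hp.le
      linarith

end Pool.Agent.Y972.RB
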