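import Pool.Agent.Y503.RB.Def3

/-!
Project RB: the radial projection of an immersed surface.
-/

set_option autoImplicit false

namespace Pool.Agent.Y972.RB

open scoped ContDiff RealInnerProductSpace ENNReal Topology
open MeasureTheory Set Metric Pool.Agent.Y503.RB

/-- SIG -/
theorem sig : Pool.Agent.Y503.RB.St_SIG := by
  intro φ z hφ hne hinj
  have hn : ContDiffAt ℝ ∞ (fun w => ‖φ w‖) z := hφ.norm ℝ hne
  have hn0 : ‖φ z‖ ≠ 0 := norm_ne_zero_iff.2 hne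
  have hi : ContDiffAt ℝ ∞ (fun w => ‖φ w‖⁻¹) z := hn.inv hn0
  have hd : DifferentiableAt ℝ φ z := hφ.differentiableAt (by simp)
  have hdi : DifferentiableAt ℝ (fun w => ‖φ w‖⁻¹) z := hi.differentiableAt (by simp)
  have hq : ∀ v, fderiv ℝ (fun w => 1 - ‖φ w‖ ^ 2) z v = -(2 * ⟪φ z, fderiv ℝ φ z v⟫) := by
    intro v
    have h1 := (hd.hasFDerivAt.norm_sq).const_sub 1
    have h2 : fderiv ℝ (fun w => 1 - ‖φ w‖ ^ 2) z = _ := h1.fderiv
    rw [h2]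
    simp
  have hσ : ∀ v, fderiv ℝ (fun w => ‖φ w‖⁻¹ • φ w) z v =
      ‖φ z‖⁻¹ • fderiv ℝ φ z v + (fderiv ℝ (fun w => ‖φ w‖⁻¹) z v) • φ z := by
    intro v
    have h1 := hdi.hasFDerivAt.smul hd.hasFDerivAt
    have h2 : fderiv ℝ (fun w => ‖φ w‖⁻¹ • φ w) z = _ := h1.fderiv
    rw [h2]
    simp
  have key : ∀ v : ℂ, v ≠ 0 → fderiv ℝ (fun w => 1 - ‖φ w‖ ^ 2) z v = 0 →
      fderiv ℝ (fun w => ‖φ w‖⁻¹ • φ w) z v ≠ 0 := by
    intro v hv h0 h1
    rw [hq] at h0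
    rw [hσ] at h1
    have h2 : ⟪φ z, fderiv ℝ φ z v⟫ = 0 := by linarith
    have h3 : ⟪‖φ z‖⁻¹ • fderiv ℝ φ z v + (fderiv ℝ (fun w => ‖φ w‖⁻¹) z v) • φ z,
        fderiv ℝ φ z v⟫ = 0 := by
      rw [h1, inner_zero_left]
    rw [inner_add_left, real_inner_smul_left, real_inner_smul_left, h2, mul_zero, add_zero,
      real_inner_self_eq_norm_sq] at h3
    have h4 : fderiv ℝ φ z v = 0 := by
      rcases mul_eq_zero.1 h3 with h5 | h5
      · exact absurd h5 (inv_ne_zero hn0)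
      · exact norm_eq_zero.1 (pow_eq_zero_iff (two_ne_zero)|>.1 h5)
    exact hv (hinj (by rw [h4, map_zero]))
  refine ⟨hi.smul hφ, ?_, key, ?_⟩
  · have h1 : ∀ᶠ w in 𝓝 z, φ w ≠ 0 := hφ.continuousAt.eventually_ne hne
    filter_upwards [h1] with w hw
    rw [norm_smul, norm_inv, norm_norm, inv_mul_cancel₀ (norm_ne_zero_iff.2 hw)]
  · intro h0
    refine (injective_iff_map_eq_zero _).2 fun v hv => ?_
    by_contra hv0
    refine key v hv0 ?_ hv
    rw [h0]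
    rfl

end Pool.Agent.Y972.RB
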