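import Pool.Agent.Y503.RB.Def3

/-!
Project RB: the second derivative test in the plane.
-/

set_option autoImplicit false

namespace Pool.Agent.Y972.RB

open scoped ContDiff RealInnerProductSpace ENNReal Topology
open MeasureTheory Set Metric Pool.Agent.Y503.RB

/-- second derivative test -/
theorem localMin_of_pos {q : ℂ → ℝ} {z₀ : ℂ} (hq : ContDiffAt ℝ ∞ q z₀)
    (h0 : fderiv ℝ q z₀ = 0) {c : ℝ} (hc : 0 < c)
    (hpos : ∀ v : ℂ, c * ‖v‖ ^ 2 ≤ fderiv ℝ (fderiv ℝ q) z₀ v v) : IsLocalMin q z₀ := by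
  have hq1 : ContDiffAt ℝ 1 (fderiv ℝ q) z₀ :=
    (hq.of_le (m := 2) (WithTop.coe_le_coe.2 (le_top : (2 : ℕ∞) ≤ ⊤))).fderiv_right (by norm_num)
  have hd : HasFDerivAt (fderiv ℝ q) (fderiv ℝ (fderiv ℝ q) z₀) z₀ :=
    (hq1.differentiableAt (by simp)).hasFDerivAt
  have h1 := hd.isLittleO.def hc
  have h2 : ∀ᶠ w in 𝓝 z₀, DifferentiableAt ℝ q w := by
    have := (hq.of_le (m := 1) (by exact_mod_cast le_top)).eventually (by simp)
    filter_upwards [this] with w hw
    exact hw.differentiableAt (by simp)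
  obtain ⟨r, hr, hball⟩ := Metric.eventually_nhds_iff_ball.1 (h1.and h2)
  have hkey : ∀ v : ℂ, z₀ + v ∈ ball z₀ r → 0 ≤ fderiv ℝ q (z₀ + v) v := by
    intro v hv
    have h3 := (hball _ hv).1
    rw [h0, sub_zero, add_sub_cancel_left] at h3
    have h4 : ‖(fderiv ℝ q (z₀ + v) - fderiv ℝ (fderiv ℝ q) z₀ v) v‖ ≤ (c * ‖v‖) * ‖v‖ :=
      (ContinuousLinearMap.le_opNorm _ _).trans (mul_le_mul_of_nonneg_right h3 (norm_nonneg _))
    have h5 := hpos v
    rw [Real.norm_eq_abs, sub_apply] at h4
    have h6 := (abs_le.1 h4).1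
    nlinarith
  refine Metric.eventually_nhds_iff_ball.2 ⟨r, hr, fun w hw => ?_⟩
  obtain ⟨v, rfl⟩ : ∃ v, w = z₀ + v := ⟨w - z₀, by ring⟩
  have hv : ‖v‖ < r := by
    rw [mem_ball, dist_eq_norm, add_sub_cancel_left] at hw
    exact hw
  have hmem : ∀ s ∈ Icc (0 : ℝ) 1, z₀ + (s : ℂ) * v ∈ ball z₀ r := by
    intro s hs
    rw [mem_ball, dist_eq_norm, add_sub_cancel_left, norm_mul, Complex.norm_real,
      Real.norm_eq_abs, abs_of_nonneg hs.1]
    have := norm_nonneg v
    nlinarith [hs.2]
  have hder : ∀ s ∈ Icc (0 : ℝ) 1, HasDerivAt (fun t : ℝ => q (z₀ + (t : ℂ) * v))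
      (fderiv ℝ q (z₀ + (s : ℂ) * v) v) s := by
    intro s hs
    have h3 := (hball _ (hmem s hs)).2.hasFDerivAt
    have h4 : HasDerivAt (fun t : ℝ => z₀ + (t : ℂ) * v) v s := by
      have h5 : HasDerivAt (fun t : ℝ => (t : ℂ)) 1 s := Complex.ofRealCLM.hasDerivAt
      have h6 := (h5.mul_const v).const_add z₀
      rwa [one_mul] at h6
    exact h3.comp_hasDerivAt s h4
  have hmono : MonotoneOn (fun t : ℝ => q (z₀ + (t : ℂ) * v)) (Icc (0 : ℝ) 1) := by
    apply monotoneOn_of_deriv_nonneg (convex_Icc 0 1)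
    · intro s hs
      exact (hder s hs).continuousAt.continuousWithinAt
    · intro s hs
      rw [interior_Icc] at hs
      exact (hder s (Ioo_subset_Icc_self hs)).differentiableAt.differentiableWithinAt
    · intro s hs
      rw [interior_Icc] at hs
      have hs' := Ioo_subset_Icc_self hs
      rw [(hder s hs').deriv]
      have h3 := hkey ((s : ℂ) * v) (hmem s hs')
      have h4 : ((s : ℂ) * v) = s • v := (Complex.real_smul).symm
      rw [h4, map_smul, ← h4, smul_eq_mul] at h3
      exact nonneg_of_mul_nonneg_right h3 hs.1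
  have h3 := hmono (left_mem_Icc.2 zero_le_one) (right_mem_Icc.2 zero_le_one) zero_le_one
  simp only [Complex.ofReal_zero, zero_mul, add_zero, Complex.ofReal_one, one_mul] at h3
  exact h3

/-- TYPE -/
theorem type : Pool.Agent.Y503.RB.St_TYPE := by
  intro q z₀ hq h0 hnd hmin
  have hsym : ∀ u v : ℂ, fderiv ℝ (fderiv ℝ q) z₀ u v = fderiv ℝ (fderiv ℝ q) z₀ v u := by
    intro u v
    have h1 : IsSymmSndFDerivAt ℝ q z₀ :=
      hq.isSymmSndFDerivAt (by rw [minSmoothness_of_isRCLikeNormedField]; exact WithTop.coe_le_coe.2 (le_top : (2 : ℕ∞) ≤ ⊤))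
    exact h1 u v
  set Q := fderiv ℝ (fderiv ℝ q) z₀ with hQ
  set A := Q 1 1 with hA
  set B := Q 1 Complex.I with hB
  set C := Q Complex.I Complex.I with hC
  have hdt : hdet q z₀ = A * C - B ^ 2 := rfl
  have hv : ∀ v : ℂ, v = v.re • (1 : ℂ) + v.im • Complex.I := by
    intro v
    rw [Complex.real_smul, Complex.real_smul, mul_one, mul_comm _ Complex.I, mul_comm Complex.I]
    exact (Complex.re_add_im v).symm
  have hQv : ∀ u v : ℂ, Q u v = u.re * v.re * A + (u.re * v.im + u.im * v.re) * B +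
      u.im * v.im * C := by
    intro u v
    have h1 : Q u v = Q (u.re • (1 : ℂ) + u.im • Complex.I) (v.re • (1 : ℂ) + v.im • Complex.I) := by
      rw [← hv u, ← hv v]
    rw [h1]
    simp only [map_add, map_smul, add_apply, smul_apply,
      smul_eq_mul]
    rw [hsym Complex.I 1]
    ring
  by_cases hneg : hdet q z₀ < 0
  · exact Or.inr hneg
  left
  rw [hdt] at hneg
  have hpos : 0 < A * C - B ^ 2 := by
    rcases (not_lt.1 hneg).eq_or_lt with h1 | h1
    · exfalso
      by_cases hAB : A = 0 ∧ B = 0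
      · have h2 := hnd 1 (fun v => by
          rw [hQv]
          simp [hAB.1, hAB.2])
        exact one_ne_zero h2
      · have h2 := hnd ⟨B, -A⟩ (fun v => by
          rw [hQv]
          simp only
          linear_combination v.im * h1)
        apply hAB
        have h3 := congrArg Complex.re h2
        have h4 := congrArg Complex.im h2
        simp only [Complex.zero_re, Complex.zero_im] at h3 h4
        exact ⟨by linarith, h3⟩
    · exact h1
  have hA0 : A ≠ 0 := by
    intro h1
    rw [h1] at hpos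
    nlinarith [sq_nonneg B]
  rcases lt_or_gt_of_ne hA0 with hAn | hAp
  · intro v hv0
    have h1 : 0 < A * Q v v := by
      have h2 : A * Q v v = (A * v.re + B * v.im) ^ 2 + (A * C - B ^ 2) * v.im ^ 2 := by
        rw [hQv]; ring
      rw [h2]
      by_cases h3 : v.im = 0
      · have h4 : v.re ≠ 0 := fun h => hv0 (Complex.ext h h3)
        rw [h3]
        have : 0 < (A * v.re + B * 0) ^ 2 := by
          rw [mul_zero, add_zero]
          positivity
        linarith
      · have : 0 < (A * C - B ^ 2) * v.im ^ 2 := by positivity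
        nlinarith [sq_nonneg (A * v.re + B * v.im)]
    by_contra h2
    have h3 := not_lt.1 h2
    nlinarith
  · exfalso
    apply hmin
    have hCp : 0 < C := by
      by_contra h1
      nlinarith [sq_nonneg B]
    refine localMin_of_pos hq h0 (c := (A * C - B ^ 2) / (A + C)) (by positivity) fun v => ?_
    rw [div_mul_eq_mul_div, div_le_iff₀ (by positivity)]
    change _ ≤ Q v v * (A + C)
    rw [hQv, Complex.sq_norm, Complex.normSq_apply]
    nlinarith [sq_nonneg (A * v.re + B * v.im), sq_nonneg (C * v.im + B * v.re)]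

end Pool.Agent.Y972.RB
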